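import Pool.Agent.H61.NVK.TargetsE1

/-!
# Row E_EPC of `nvk_modules`: only the class of the ideal `a` matters
-/

set_option autoImplicit false

open MeasureTheory Set Filter NumberField NumberField.InfinitePlace
open scoped Real nonZeroDivisors

namespace Pool.Agent.H1.NVE_EPC

open Pool.Agent.H65.CM4 Pool.Agent.H61.CM4 Pool.Agent.H61.NVK

section

variable {k : Type} [Field k] [NumberField k] [IsTotallyReal k]

theorem abs_rv (v : Pl k) (x : k) : |rv v x| = v x := by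
  have := norm_embedding_of_isReal (IsTotallyReal.isReal v) x
  rwa [Real.norm_eq_abs] at this

/-- the product of the places of `x` is the norm of the ideal of `x` -/
theorem prod_abs_rv (x : 𝓞 k) :
    ∏ v : Pl k, |rv v (x : k)| = nm (Ideal.span {x} : Ideal (𝓞 k)) := by
  have h := InfinitePlace.prod_eq_abs_norm (x : k)
  have h2 : ∏ v : Pl k, |rv v (x : k)| = |((Algebra.norm ℚ (x : k) : ℚ) : ℝ)| := by
    rw [← Rat.cast_abs, ← h]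
    refine Finset.prod_congr rfl fun v _ => ?_
    rw [IsTotallyReal.mult_eq, pow_one, abs_rv]
  rw [h2, ← Algebra.coe_norm_int]
  unfold nm
  rw [Ideal.absNorm_span_singleton, Rat.cast_intCast, ← Int.cast_abs, Nat.cast_natAbs]

theorem qp_smul (X Y : Pl k → ℝ) (c : 𝓞 k) (u : V2 k) :
    qp X Y (c • u) = nm (Ideal.span {c} : Ideal (𝓞 k)) ^ 2 * qp X Y u := by
  rw [← prod_abs_rv, ← Finset.prod_pow]
  unfold qp
  rw [← Finset.prod_mul_distrib]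
  refine Finset.prod_congr rfl fun v _ => ?_
  have h1 : (((c • u).1 : 𝓞 k) : k) = (c : k) * (u.1 : k) := by
    rw [Prod.smul_fst, smul_eq_mul]
    exact map_mul (algebraMap (𝓞 k) k) _ _
  have h2 : (((c • u).2 : 𝓞 k) : k) = (c : k) * (u.2 : k) := by
    rw [Prod.smul_snd, smul_eq_mul]
    exact map_mul (algebraMap (𝓞 k) k) _ _
  rw [h1, h2, map_mul, map_mul, sq_abs]
  unfold qr
  ring

theorem nm_unit (ε : (𝓞 k)ˣ) : nm (Ideal.span {(ε : 𝓞 k)} : Ideal (𝓞 k)) = 1 := by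
  have h : (Ideal.span {(ε : 𝓞 k)} : Ideal (𝓞 k)) = ⊤ := Ideal.span_singleton_eq_top.mpr ε.isUnit
  rw [h]
  unfold nm
  rw [Ideal.absNorm_top, Nat.cast_one]

theorem exists_T {x y : 𝓞 k} {a a' : Ideal (𝓞 k)}
    (h : Ideal.span {x} * a = Ideal.span {y} * a') (B : Ideal (𝓞 k)) (u : V2 k)
    (hu : u ∈ Lb a B) : ∃ u' : V2 k, u' ∈ Lb a' B ∧ y • u' = x • u := by
  have hu' : u.1 ∈ a * B ∧ u.2 ∈ a := hu
  have h1 : x * u.1 ∈ Ideal.span {y} * (a' * B) := by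
    rw [← mul_assoc, ← h, mul_assoc]
    exact Ideal.mul_mem_mul (Ideal.mem_span_singleton_self x) hu'.1
  have h2 : x * u.2 ∈ Ideal.span {y} * a' := by
    rw [← h]
    exact Ideal.mul_mem_mul (Ideal.mem_span_singleton_self x) hu'.2
  rw [Ideal.mem_span_singleton_mul] at h1 h2
  obtain ⟨z1, hz1, e1⟩ := h1
  obtain ⟨z2, hz2, e2⟩ := h2
  refine ⟨(z1, z2), ⟨hz1, hz2⟩, ?_⟩
  apply Prod.ext
  · exact e1
  · exact e2

end

theorem pf_EPC (hLIX : T_LIX) (hFOR : T_FOR) : T_EPC := by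
  intro k _ _ _ a a' B hc
  obtain ⟨hF1, hF2, hF3⟩ := hFOR k
  rw [ClassGroup.mk0_eq_mk0_iff] at hc
  obtain ⟨x, y, hx, hy, hxy⟩ := hc
  obtain ⟨hi1, hi2, hi3, hi4⟩ := hLIX k a B
  obtain ⟨hi1', hi2', hi3', hi4'⟩ := hLIX k a' B
  -- representatives of a nonzero vector
  have hrep : ∀ w : V2 k, w ≠ 0 → ∃ (ε : (𝓞 k)ˣ) (r : V2 k), r ∈ Fo k ∧ r = (ε : 𝓞 k) • w := by
    intro w hw
    obtain ⟨p, ⟨hp1, hp2⟩, -⟩ := hF3 w hw
    refine ⟨p.1⁻¹, p.2, hp1, ?_⟩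
    rw [← hF2, ← hp2, inv_smul_smul]
  have huniq : ∀ (ε : (𝓞 k)ˣ) (w w' : V2 k), w ∈ Fo k → w' ∈ Fo k → w' = (ε : 𝓞 k) • w →
      w' = w := by
    intro ε w w' hw hw' h
    obtain ⟨p, -, hp⟩ := hF3 w' (hF1 w' hw')
    have h1 := hp (ε, w) ⟨hw, by rw [h]; exact hF2 ε w⟩
    have h2 := hp (1, w') ⟨hw', one_smul _ _⟩
    have h3 := h1.trans h2.symm
    exact (congrArg Prod.snd h3).symm
  -- the relation
  have hex : ∀ (x y : 𝓞 k) (a a' : Ideal (𝓞 k)), x ≠ 0 → y ≠ 0 →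
      Ideal.span {x} * a = Ideal.span {y} * a' → ∀ u : V2 k, u ∈ Lb a (B : Ideal (𝓞 k)) →
      u ∈ Fo k → ∃ (u' : V2 k) (ε : (𝓞 k)ˣ), u' ∈ Lb a' (B : Ideal (𝓞 k)) ∧ u' ∈ Fo k ∧
        y • u' = (ε : 𝓞 k) • (x • u) := by
    intro x y a a' hx hy h u hu hu2
    obtain ⟨w, hw, hw2⟩ := exists_T h B u hu
    have hw0 : w ≠ 0 := by
      intro h0
      rw [h0, smul_zero] at hw2
      rcases smul_eq_zero.1 hw2.symm with h9 | h9
      · exact hx h9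
      · exact hF1 u hu2 h9
    obtain ⟨ε, r, hr, hr2⟩ := hrep w hw0
    refine ⟨r, ε, ?_, hr, ?_⟩
    · rw [hr2]
      exact Submodule.smul_mem _ _ hw
    · rw [hr2, smul_comm y, hw2]
  choose! f g hf1 hf2 hf3 using hex x y a a' hx hy hxy
  let F : {u : V2 k // u ∈ Lb (a : Ideal (𝓞 k)) B ∧ u ∈ Fo k} →
      {u : V2 k // u ∈ Lb (a' : Ideal (𝓞 k)) B ∧ u ∈ Fo k} :=
    fun u => ⟨f u.1, hf1 u.1 u.2.1 u.2.2, hf2 u.1 u.2.1 u.2.2⟩
  have hF : Function.Bijective F := by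
    constructor
    · intro u1 u2 h
      have h1 : f u1.1 = f u2.1 := congrArg Subtype.val h
      have e1 := hf3 u1.1 u1.2.1 u1.2.2
      have e2 := hf3 u2.1 u2.2.1 u2.2.2
      rw [h1, e2] at e1
      have h2 : u1.1 = (((g u1.1)⁻¹ * g u2.1 : (𝓞 k)ˣ) : 𝓞 k) • u2.1 := by
        have h3 : x • (((g u1.1)⁻¹ * g u2.1 : (𝓞 k)ˣ) : 𝓞 k) • u2.1 = x • u1.1 := by
          have h4 : ((((g u1.1)⁻¹ : (𝓞 k)ˣ) : 𝓞 k)) • ((g u2.1 : 𝓞 k) • (x • u2.1)) =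
              ((((g u1.1)⁻¹ : (𝓞 k)ˣ) : 𝓞 k)) • ((g u1.1 : 𝓞 k) • (x • u1.1)) := by rw [e1]
          rw [← hF2 ((g u1.1)⁻¹), ← hF2 ((g u1.1)⁻¹), ← hF2 (g u1.1), inv_smul_smul] at h4
          rw [← h4, hF2, Units.val_mul, mul_smul, smul_comm x, smul_comm x]
        exact (smul_right_injective (V2 k) hx h3).symm
      exact Subtype.ext (huniq _ _ _ u2.2.2 u1.2.2 h2)
    · intro w
      obtain ⟨u, ε, hu1, hu2, hu3⟩ := hex y x a' a hy hx hxy.symm w.1 w.2.1 w.2.2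
      refine ⟨⟨u, hu1, hu2⟩, Subtype.ext ?_⟩
      change f u = w.1
      have e1 := hf3 u hu1 hu2
      rw [hu3] at e1
      have h2 : f u = ((g u * ε : (𝓞 k)ˣ) : 𝓞 k) • w.1 := by
        apply smul_right_injective (V2 k) hy
        change y • f u = y • _
        rw [e1, Units.val_mul, mul_smul, smul_comm y, smul_comm y]
      exact huniq _ _ _ w.2.2 (hf2 u hu1 hu2) h2
  refine ⟨Equiv.ofBijective F hF, ?_⟩
  intro X Y u
  change qp X Y (f u.1) / ix (Lb (a' : Ideal (𝓞 k)) B) =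
    qp X Y u.1 / ix (Lb (a : Ideal (𝓞 k)) B)
  have e1 := hf3 u.1 u.2.1 u.2.2
  have e2 : nm (Ideal.span {y} : Ideal (𝓞 k)) ^ 2 * qp X Y (f u.1) =
      nm (Ideal.span {x} : Ideal (𝓞 k)) ^ 2 * qp X Y u.1 := by
    rw [← qp_smul, e1, qp_smul, nm_unit, qp_smul]
    ring
  have e3 : nm (Ideal.span {x} : Ideal (𝓞 k)) * nm (a : Ideal (𝓞 k)) =
      nm (Ideal.span {y} : Ideal (𝓞 k)) * nm (a' : Ideal (𝓞 k)) := by
    unfold nm
    rw [← Nat.cast_mul, ← Nat.cast_mul, ← map_mul, ← map_mul, hxy]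
  have hX : nm (Ideal.span {x} : Ideal (𝓞 k)) ≠ 0 := by
    unfold nm
    rw [Nat.cast_ne_zero, Ideal.absNorm_ne_zero_iff_mem_nonZeroDivisors,
      mem_nonZeroDivisors_iff_ne_zero]
    simpa using hx
  have hY : nm (Ideal.span {y} : Ideal (𝓞 k)) ≠ 0 := by
    unfold nm
    rw [Nat.cast_ne_zero, Ideal.absNorm_ne_zero_iff_mem_nonZeroDivisors,
      mem_nonZeroDivisors_iff_ne_zero]
    simpa using hy
  have hI : (ix (Lb (a : Ideal (𝓞 k)) B) : ℝ) ≠ 0 := by exact_mod_cast hi2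
  have hI' : (ix (Lb (a' : Ideal (𝓞 k)) B) : ℝ) ≠ 0 := by exact_mod_cast hi2'
  rw [div_eq_div_iff hI' hI, hi1, hi1']
  have h5 : (nm (Ideal.span {x} : Ideal (𝓞 k)) ^ 2 * nm (Ideal.span {y} : Ideal (𝓞 k)) ^ 2) *
      (qp X Y (f u.1) * (nm (a : Ideal (𝓞 k)) ^ 2 * nm (B : Ideal (𝓞 k)))) =
      (nm (Ideal.span {x} : Ideal (𝓞 k)) ^ 2 * nm (Ideal.span {y} : Ideal (𝓞 k)) ^ 2) *
      (qp X Y u.1 * (nm (a' : Ideal (𝓞 k)) ^ 2 * nm (B : Ideal (𝓞 k)))) := by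
    linear_combination (nm (Ideal.span {x} : Ideal (𝓞 k)) * nm (a : Ideal (𝓞 k))) ^ 2 *
      nm (B : Ideal (𝓞 k)) * e2 + nm (Ideal.span {x} : Ideal (𝓞 k)) ^ 2 * qp X Y u.1 *
      nm (B : Ideal (𝓞 k)) * (nm (Ideal.span {x} : Ideal (𝓞 k)) * nm (a : Ideal (𝓞 k)) +
      nm (Ideal.span {y} : Ideal (𝓞 k)) * nm (a' : Ideal (𝓞 k))) * e3
  exact mul_left_cancel₀ (mul_ne_zero (pow_ne_zero 2 hX) (pow_ne_zero 2 hY)) h5

end Pool.Agent.H1.NVE_EPC
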