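import Pool.Agent.H61.NVK.TargetsE1

/-!
# Row E_KRE of `nvk_modules`: the kernel is real on the real line
-/

set_option autoImplicit false

open MeasureTheory Set Filter NumberField NumberField.InfinitePlace
open scoped Real nonZeroDivisors ComplexConjugate

namespace Pool.Agent.H1.NVE_KRE

open Pool.Agent.H65.CM4 Pool.Agent.H61.CM4 Pool.Agent.H61.NVK

theorem cpow_pos_conj (x : ℝ) (hx : 0 < x) (w : ℂ) :
    conj ((x : ℂ) ^ w) = (x : ℂ) ^ (conj w) := by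
  have h := Complex.cpow_conj (x : ℂ) w (by
    rw [Complex.arg_ofReal_of_nonneg hx.le]
    exact Real.pi_pos.ne)
  rw [h, Complex.conj_ofReal]

theorem gG_conj (w : ℂ) : conj (gG w) = gG (conj w) := by
  unfold gG
  have h2 : (2 * (π : ℂ)) = ((2 * π : ℝ) : ℂ) := by push_cast; rfl
  rw [h2, map_mul, map_mul, map_mul, map_sub, map_one, cpow_pos_conj (2 * π) (by positivity),
    map_neg, Complex.Gamma_conj]

theorem gG_half : gG (1 / 2) = ((-(1 / (4 * Real.sqrt 2)) : ℝ) : ℂ) := by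
  unfold gG
  rw [Complex.Gamma_one_half_eq]
  have h2 : (2 * (π : ℂ)) = ((2 * π : ℝ) : ℂ) := by push_cast; rfl
  have h3 : (-(1 / 2) : ℂ) = ((-(1 / 2) : ℝ) : ℂ) := by push_cast; rfl
  have h4 : (1 / 2 : ℂ) = ((1 / 2 : ℝ) : ℂ) := by push_cast; rfl
  have h5 : ((1 / 2 : ℂ) * (1 / 2 - 1)) = ((-(1 / 4) : ℝ) : ℂ) := by push_cast; ring
  rw [h5, h2, h3, h4, ← Complex.ofReal_cpow Real.pi_pos.le,
    ← Complex.ofReal_cpow (by positivity : (0 : ℝ) ≤ 2 * π), ← Complex.ofReal_mul,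
    ← Complex.ofReal_mul]
  congr 1
  rw [Real.rpow_neg (by positivity), ← Real.sqrt_eq_rpow, ← Real.sqrt_eq_rpow,
    Real.sqrt_mul (by norm_num : (0 : ℝ) ≤ 2)]
  have hp : Real.sqrt π ≠ 0 := (Real.sqrt_pos.mpr Real.pi_pos).ne'
  have h2' : Real.sqrt 2 ≠ 0 := (Real.sqrt_pos.mpr (by norm_num)).ne'
  field_simp

theorem Kc_conj (n : ℕ) (x : ℝ) (hx : 0 < x) : conj (Kc n (1 / 2) (x : ℂ)) = Kc n (1 / 2) (x : ℂ) := by
  unfold Kc
  rw [map_mul, Complex.conj_ofReal, ← integral_conj]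
  congr 1
  rw [← integral_neg_eq_self (fun t : ℝ => gG (2 + t * Complex.I) ^ n *
    (Complex.exp ((2 + t * Complex.I - 1 / 2) ^ 2) / (2 + t * Complex.I - 1 / 2)) *
      (x : ℂ) ^ (-(2 + t * Complex.I)))]
  congr 1
  ext t
  have hw : conj (2 + (t : ℂ) * Complex.I) = 2 + ((-t : ℝ) : ℂ) * Complex.I := by
    rw [map_add, map_mul, Complex.conj_ofReal, Complex.conj_I]
    have : conj (2 : ℂ) = 2 := Complex.conj_ofNat 2
    rw [this]
    push_cast
    ring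
  have hw2 : conj (2 + (t : ℂ) * Complex.I - 1 / 2) = 2 + ((-t : ℝ) : ℂ) * Complex.I - 1 / 2 := by
    rw [map_sub, hw]
    congr 1
    rw [map_div₀, map_one]
    have : conj (2 : ℂ) = 2 := Complex.conj_ofNat 2
    rw [this]
  rw [map_mul, map_mul, map_pow, gG_conj, hw, map_div₀, hw2, ← Complex.exp_conj, map_pow, hw2,
    cpow_pos_conj x hx, map_neg, hw]

theorem Kc_im (n : ℕ) (x : ℝ) (hx : 0 < x) : (Kc n (1 / 2) (x : ℂ)).im = 0 :=
  Complex.conj_eq_iff_im.mp (Kc_conj n x hx)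

theorem pf_KRE : T_KRE := by
  refine ⟨gG_half, Kc_im, ?_⟩
  intro k _ _ x hx hd
  have hd' : (0 : ℝ) < dk k := by exact_mod_cast hd
  have h1 := Kc_im (dg k) (x / dk k) (by positivity)
  have h2 : ((Kc (dg k) (1 / 2) ((x / dk k : ℝ) : ℂ)).re : ℂ) =
      Kc (dg k) (1 / 2) ((x / dk k : ℝ) : ℂ) := by
    apply Complex.ext
    · simp
    · rw [Complex.ofReal_im, h1]
  unfold Vk
  rw [gG_half, ← h2, ← Complex.ofReal_pow, ← Complex.ofReal_div, ← Complex.ofReal_mul,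
    Complex.ofReal_re]

end Pool.Agent.H1.NVE_KRE
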