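import Pool.Agent.H61.NVK.TargetsE2
import Pool.Agent.H63.HK.DU

/-!
# Row E_LDU of `nvk_modules`: the dual lattice
-/

set_option autoImplicit false

open MeasureTheory Set Filter NumberField NumberField.InfinitePlace
open scoped Real nonZeroDivisors

namespace Pool.Agent.H1.NVE_LDU

open Pool.Agent.H65.CM4 Pool.Agent.H61.CM4 Pool.Agent.H61.NVK

section

variable {k : Type} [Field k] [NumberField k]

/-- the condition of the dual lattice, in one variable -/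
theorem mem_dF {I : Pool.Agent.H25.HK.FI k} (hI : I ≠ 0) (x : k) :
    x ∈ dF I ↔ ∀ y ∈ I, ∃ n : ℤ, (n : ℚ) = Algebra.trace ℚ k (x * y) := by
  unfold dF Pool.Agent.H25.HK.du
  rw [FractionalIdeal.mem_dual hI]
  constructor
  · intro h y hy
    obtain ⟨n, hn⟩ := h y hy
    exact ⟨n, hn⟩
  · intro h y hy
    obtain ⟨n, hn⟩ := h y hy
    exact ⟨n, hn⟩

theorem mem_iF (I : Ideal (𝓞 k)) (x : k) : x ∈ iF I ↔ ∃ y ∈ I, (y : k) = x :=
  FractionalIdeal.mem_coeIdeal _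

/-- the divisibility condition -/
theorem dvd_iff (q : ℕ) (hq : q ≠ 0) (I : Ideal (𝓞 k)) (hI : iF I ≠ 0) (x : 𝓞 k) :
    (∀ w ∈ I, ((q : ℕ) : ℤ) ∣ Algebra.trace ℤ (𝓞 k) (x * w)) ↔
      (x : k) * ((q : k))⁻¹ ∈ dF (iF I) := by
  have hqk : (q : k) ≠ 0 := Nat.cast_ne_zero.mpr hq
  have hqQ : (q : ℚ) ≠ 0 := Nat.cast_ne_zero.mpr hq
  have htr : ∀ w : 𝓞 k, Algebra.trace ℚ k ((x : k) * ((q : k))⁻¹ * (w : k)) * q =
      ((Algebra.trace ℤ (𝓞 k) (x * w) : ℤ) : ℚ) := by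
    intro w
    rw [Algebra.coe_trace_int, mul_comm _ (q : ℚ), ← smul_eq_mul, ← map_smul]
    congr 1
    rw [Algebra.smul_def, map_natCast]
    have h1 : (((x * w : 𝓞 k)) : k) = (x : k) * (w : k) := map_mul (algebraMap (𝓞 k) k) x w
    rw [h1]
    field_simp
  rw [mem_dF hI]
  constructor
  · intro h y hy
    obtain ⟨w, hw, rfl⟩ := (mem_iF I y).mp hy
    obtain ⟨n, hn⟩ := h w hw
    refine ⟨n, ?_⟩
    have h2 := htr w
    rw [hn] at h2
    push_cast at h2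
    have h3 : (q : ℚ) * Algebra.trace ℚ k ((x : k) * ((q : k))⁻¹ * (w : k)) = q * n := by
      rw [mul_comm]
      exact h2
    exact (mul_left_cancel₀ hqQ h3).symm
  · intro h w hw
    obtain ⟨n, hn⟩ := h (w : k) ((mem_iF I _).mpr ⟨w, hw, rfl⟩)
    refine ⟨n, ?_⟩
    have h2 := htr w
    rw [← hn] at h2
    have h3 : ((Algebra.trace ℤ (𝓞 k) (x * w) : ℤ) : ℚ) = ((q * n : ℤ) : ℚ) := by
      rw [← h2]
      push_cast
      ring
    exact_mod_cast h3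

/-- the integral ideal `O ∩ q F` -/
def jd (q : ℕ) (F : Pool.Agent.H25.HK.FI k) : Ideal (𝓞 k) where
  carrier := {y | (y : k) * ((q : k))⁻¹ ∈ F}
  zero_mem' := by
    change ((0 : 𝓞 k) : k) * ((q : k))⁻¹ ∈ F
    have h : ((0 : 𝓞 k) : k) = 0 := map_zero (algebraMap (𝓞 k) k)
    rw [h, zero_mul]
    exact Submodule.zero_mem (F : Submodule (𝓞 k) k)
  add_mem' := by
    intro x y hx hy
    change ((x + y : 𝓞 k) : k) * ((q : k))⁻¹ ∈ F
    have h : ((x + y : 𝓞 k) : k) = (x : k) + (y : k) := map_add (algebraMap (𝓞 k) k) x y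
    rw [h, add_mul]
    exact Submodule.add_mem (F : Submodule (𝓞 k) k) hx hy
  smul_mem' := by
    intro c x hx
    change ((c * x : 𝓞 k) : k) * ((q : k))⁻¹ ∈ F
    have h : ((c * x : 𝓞 k) : k) = (c : k) * (x : k) := map_mul (algebraMap (𝓞 k) k) c x
    rw [h, mul_assoc]
    exact Submodule.smul_mem (F : Submodule (𝓞 k) k) c hx

theorem mem_jd (q : ℕ) (F : Pool.Agent.H25.HK.FI k) (y : 𝓞 k) :
    y ∈ jd q F ↔ (y : k) * ((q : k))⁻¹ ∈ F := Iff.rfl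

theorem iF_jd (q : ℕ) (hq : q ≠ 0) (F : Pool.Agent.H25.HK.FI k) (hF : Dn q F) :
    iF (jd q F) = FractionalIdeal.spanSingleton (𝓞 k)⁰ (q : k) * F := by
  have hqk : (q : k) ≠ 0 := Nat.cast_ne_zero.mpr hq
  ext x
  rw [mem_iF, FractionalIdeal.mem_singleton_mul]
  constructor
  · rintro ⟨y, hy, rfl⟩
    refine ⟨_, hy, ?_⟩
    field_simp
  · rintro ⟨z, hz, rfl⟩
    obtain ⟨y, hy⟩ := hF z hz
    refine ⟨y, ?_, hy⟩
    rw [mem_jd, hy, mul_comm (q : k) z, mul_assoc, mul_inv_cancel₀ hqk, mul_one]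
    exact hz

theorem iF_mul (I J : Ideal (𝓞 k)) : iF (I * J) = iF I * iF J := FractionalIdeal.coeIdeal_mul I J

theorem mem_du (M : La k) (u : V2 k) :
    u ∈ Pool.Agent.H65.CM4.du M ↔
      ∀ v ∈ M, ((dk k * ix M : ℕ) : ℤ) ∣ Algebra.trace ℤ (𝓞 k) (det u v) := Iff.rfl

end

theorem pf_LDU (hLIX : T_LIX) (hFRI : T_FRI) : T_LDU := by
  intro k _ _ _
  have hdk : (dk k : ℝ) ≠ 0 := by
    have h : dk k ≠ 0 := Int.natAbs_ne_zero.mpr (NumberField.discr_ne_zero k)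
    exact_mod_cast h
  have h10 : (1 : Pool.Agent.H25.HK.FI k) ≠ 0 := one_ne_zero
  have hdu := Pool.Agent.H63.HK.du k
  have hD1 : dF (1 : Pool.Agent.H25.HK.FI k) ≠ 0 := (hdu 1 h10).1
  refine ⟨ClassGroup.mk k (Units.mk0 (dF (1 : Pool.Agent.H25.HK.FI k)) hD1), ?_⟩
  intro a B
  obtain ⟨hi1, hi2, hi3, hi4⟩ := hLIX k a B
  obtain ⟨f1, f2, f3, f4, f5, f6, f7, f8, f9, f10, f11, f12, f13, f14⟩ := hFRI k a B
  set q : ℕ := Dm (Lb (a : Ideal (𝓞 k)) B) with hqdef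
  have hdk' : dk k ≠ 0 := by exact_mod_cast hdk
  have hq : q ≠ 0 := mul_ne_zero hdk' hi2
  have hqk : (q : k) ≠ 0 := Nat.cast_ne_zero.mpr hq
  have hsp : FractionalIdeal.spanSingleton (𝓞 k)⁰ (q : k) ≠ 0 :=
    FractionalIdeal.spanSingleton_ne_zero_iff.mpr hqk
  set F : Pool.Agent.H25.HK.FI k := dF (iF ((a : Ideal (𝓞 k)) * (B : Ideal (𝓞 k)))) with hF
  have hiF : iF (jd q F) = FractionalIdeal.spanSingleton (𝓞 k)⁰ (q : k) * F :=
    iF_jd q hq F f14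
  have hne : jd q F ≠ ⊥ := by
    intro h0
    have h1 : iF (jd q F) = 0 := by
      rw [h0]
      exact FractionalIdeal.coeIdeal_bot
    rw [hiF] at h1
    exact mul_ne_zero hsp f4 h1
  have hjB : jd q F * (B : Ideal (𝓞 k)) = jd q (dF (iF (a : Ideal (𝓞 k)))) := by
    apply FractionalIdeal.coeIdeal_injective (K := k)
    change iF (jd q F * (B : Ideal (𝓞 k))) = iF (jd q (dF (iF (a : Ideal (𝓞 k)))))
    rw [iF_mul, hiF, iF_jd q hq _ f13, f6]
    ring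
  set a' : (Ideal (𝓞 k))⁰ := ⟨jd q F, mem_nonZeroDivisors_iff_ne_zero.mpr hne⟩ with ha'
  have ha'v : (a' : Ideal (𝓞 k)) = jd q F := rfl
  refine ⟨a', ?_, ?_, ?_⟩
  · ext u
    rw [mem_du]
    change (∀ v ∈ Lb (a : Ideal (𝓞 k)) B, ((q : ℕ) : ℤ) ∣ Algebra.trace ℤ (𝓞 k) (det u v)) ↔
      u.1 ∈ (a' : Ideal (𝓞 k)) * B ∧ u.2 ∈ (a' : Ideal (𝓞 k))
    rw [ha'v, hjB, mem_jd, mem_jd, ← dvd_iff q hq (a : Ideal (𝓞 k)) f1,
      ← dvd_iff q hq ((a : Ideal (𝓞 k)) * (B : Ideal (𝓞 k))) f2]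
    constructor
    · intro h
      constructor
      · intro w hw
        have h1 := h (0, w) ⟨Submodule.zero_mem _, hw⟩
        have h2 : det u ((0, w) : V2 k) = u.1 * w := by simp [det]
        rwa [h2] at h1
      · intro w hw
        have h1 := h (w, 0) ⟨hw, Submodule.zero_mem _⟩
        have h2 : det u ((w, 0) : V2 k) = -(u.2 * w) := by simp [det]
        rw [h2, map_neg, dvd_neg] at h1
        exact h1
    · rintro ⟨h1, h2⟩ v ⟨hv1, hv2⟩
      have h3 : det u v = u.1 * v.2 - u.2 * v.1 := rfl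
      rw [h3, map_sub]
      exact dvd_sub (h1 v.2 hv2) (h2 v.1 hv1)
  · -- the class
    have e0 : ∀ I : (Ideal (𝓞 k))⁰, ((FractionalIdeal.mk0 k I : (Pool.Agent.H25.HK.FI k)ˣ) :
        Pool.Agent.H25.HK.FI k) = iF (I : Ideal (𝓞 k)) := fun I => rfl
    have e1 : FractionalIdeal.mk0 k a' = Units.mk0 _ hsp * (Units.mk0 (dF 1) hD1 *
        (FractionalIdeal.mk0 k a * FractionalIdeal.mk0 k B)⁻¹) := by
      apply Units.ext
      rw [Units.val_mul, Units.val_mul, Units.val_inv_eq_inv_val, Units.val_mul, e0, e0, e0,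
        Units.val_mk0, Units.val_mk0, ha'v, hiF]
      have h3 : F = (iF ((a : Ideal (𝓞 k)) * (B : Ideal (𝓞 k))))⁻¹ * dF 1 := (hdu _ f2).2.2.1
      rw [h3, iF_mul, mul_comm (_)⁻¹ (dF 1)]
    have e2 : ClassGroup.mk k (Units.mk0 (FractionalIdeal.spanSingleton (𝓞 k)⁰ (q : k)) hsp) =
        1 := by
      rw [ClassGroup.mk_eq_one_iff, Units.val_mk0, FractionalIdeal.coe_spanSingleton]
      exact ⟨⟨(q : k), rfl⟩⟩
    rw [← ClassGroup.mk_mk0 k a', e1, map_mul, e2, one_mul, map_mul, map_inv, map_mul,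
      ClassGroup.mk_mk0, ClassGroup.mk_mk0]
  · -- the norms
    obtain ⟨hj1, hj2, hj3, hj4⟩ := hLIX k a' B
    rw [hj1, hi1]
    have n1 : nF (iF (a' : Ideal (𝓞 k))) = nm (a' : Ideal (𝓞 k)) := by
      unfold nF nm iF
      rw [FractionalIdeal.coeIdeal_absNorm, Rat.cast_natCast]
    have n2 : nF (FractionalIdeal.spanSingleton (𝓞 k)⁰ (q : k)) = (q : ℝ) ^ dg k := by
      unfold nF
      rw [FractionalIdeal.absNorm_span_singleton]
      have h1 : (q : k) = algebraMap ℚ k (q : ℚ) := (map_natCast _ _).symm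
      rw [h1, Algebra.norm_algebraMap]
      unfold dg
      rw [Rat.cast_abs]
      push_cast
      rw [abs_of_nonneg (by positivity)]
    have n3 : nm (a' : Ideal (𝓞 k)) = (q : ℝ) ^ dg k * nF F := by
      rw [← n1, ha'v, hiF, ← n2]
      unfold nF
      rw [map_mul]
      push_cast
      ring
    have n4 : nF F * (nm (a : Ideal (𝓞 k)) * nm (B : Ideal (𝓞 k))) * dk k = 1 := by
      have h1 := (hdu _ f2).2.2.2.2
      rw [← f9]
      have h2 : (dk k : ℝ) = |(discr k : ℝ)| := by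
        unfold dk
        rw [Nat.cast_natAbs, Int.cast_abs]
      rw [h2]
      exact h1
    have n5 : (dk k : ℝ) ^ 2 * (nm (a : Ideal (𝓞 k)) ^ 2 * nm (B : Ideal (𝓞 k))) *
        (nm (a' : Ideal (𝓞 k)) ^ 2 * nm (B : Ideal (𝓞 k))) =
        (q : ℝ) ^ (2 * dg k) *
          (nF F * (nm (a : Ideal (𝓞 k)) * nm (B : Ideal (𝓞 k))) * dk k) ^ 2 := by
      rw [n3, mul_comm 2 (dg k), pow_mul]
      ring
    rw [n5, n4, one_pow, mul_one]

end Pool.Agent.H1.NVE_LDU
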