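import Pool.Agent.H61.NVK.TargetsE1

/-!
# Row E_LIX of `nvk_modules`: the index of the lattice
-/

set_option autoImplicit false

open MeasureTheory Set Filter NumberField NumberField.InfinitePlace
open scoped Real nonZeroDivisors

namespace Pool.Agent.H1.NVE_LIX

open Pool.Agent.H65.CM4 Pool.Agent.H61.CM4 Pool.Agent.H61.NVK

theorem ix_Lb {k : Type} [Field k] [NumberField k] (a B : Ideal (𝓞 k)) :
    ix (Lb a B) = Ideal.absNorm (a * B) * Ideal.absNorm a := by
  have h1 : (Lb a B).toAddSubgroup =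
      ((a * B).toAddSubgroup : AddSubgroup (𝓞 k)).prod (a.toAddSubgroup) := by
    ext x
    simp only [Lb, Submodule.mem_toAddSubgroup, Submodule.mem_prod, AddSubgroup.mem_prod]
  unfold ix
  rw [h1, AddSubgroup.index_prod]
  rfl

theorem pf_LIX : T_LIX := by
  intro k _ _ _ a B
  have ha : Ideal.absNorm (a : Ideal (𝓞 k)) ≠ 0 := Ideal.absNorm_ne_zero_of_nonZeroDivisors a
  have hB : Ideal.absNorm (B : Ideal (𝓞 k)) ≠ 0 := Ideal.absNorm_ne_zero_of_nonZeroDivisors B
  refine ⟨?_, ?_, ?_, ?_⟩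
  · rw [ix_Lb, map_mul]
    unfold nm
    push_cast
    ring
  · rw [ix_Lb, map_mul]
    exact mul_ne_zero (mul_ne_zero ha hB) ha
  · unfold nm
    exact_mod_cast Nat.one_le_iff_ne_zero.mpr ha
  · unfold nm
    exact_mod_cast Nat.one_le_iff_ne_zero.mpr hB

end Pool.Agent.H1.NVE_LIX
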