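import Pool.Agent.H61.NVK.TargetsE2
import Pool.Agent.H68.RC.PO
import Pool.Agent.H16.HK.PS
import Pool.Agent.H42.RC.GA
import Pool.Agent.H33.RC.F1
import Pool.Agent.H12.RC.GS

/-!
# Row E_POS of `nvk_modules`: Poisson summation for Gaussians with a shift
-/

set_option autoImplicit false

open MeasureTheory Set Filter NumberField NumberField.InfinitePlace
open scoped Real nonZeroDivisors

namespace Pool.Agent.H1.NVE_POS

open Pool.Agent.H65.CM4 Pool.Agent.H61.CM4 Pool.Agent.H61.NVK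

theorem c_PO : Pool.Agent.H28.RC.T_POc :=
  Pool.Agent.H68.RC.pf_PO Pool.Agent.H16.HK.ps
    (Pool.Agent.H42.RC.pf_GA Pool.Agent.H33.RC.pf_F1) Pool.Agent.H12.RC.pf_GS

theorem gj_empty {J : Type} [Fintype J] (u : J → ℝ) :
    Pool.Agent.H28.RC.gj ∅ u = Real.exp (-π * ∑ i, u i ^ 2) := by
  unfold Pool.Agent.H28.RC.gj
  rw [Finset.prod_empty, one_mul]

theorem pf_POS : T_POS := by
  intro J _ _ A p hA
  obtain ⟨h1, h2, h3⟩ := c_PO J A ∅ hA (A⁻¹.mulVec p)
  have hu : IsUnit A.det := isUnit_iff_ne_zero.mpr hA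
  have e1 : ∀ m : J → ℤ, Pool.Agent.H28.RC.gj ∅
      (A.mulVec (fun i => (m i : ℝ) + A⁻¹.mulVec p i)) =
      Real.exp (-π * ∑ i, (A.mulVec (fun i => (m i : ℝ)) i + p i) ^ 2) := by
    intro m
    have h4 : A.mulVec (fun i => (m i : ℝ) + A⁻¹.mulVec p i) =
        fun i => A.mulVec (fun i => (m i : ℝ)) i + p i := by
      have h5 : (fun i => (m i : ℝ) + A⁻¹.mulVec p i) = (fun i => (m i : ℝ)) + A⁻¹.mulVec p := rfl
      rw [h5, Matrix.mulVec_add, Matrix.mulVec_mulVec, Matrix.mul_nonsing_inv A hu,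
        Matrix.one_mulVec]
      rfl
    rw [h4, gj_empty]
  have e2 : ∀ n : J → ℤ, Pool.Agent.H28.RC.gj ∅
      ((A⁻¹).transpose.mulVec (fun i => (n i : ℝ))) =
      Real.exp (-π * ∑ i, ((A⁻¹).transpose.mulVec (fun i => (n i : ℝ)) i) ^ 2) := by
    intro n
    rw [gj_empty]
  have e3 : ∀ n : J → ℤ, ∑ i, (n i : ℝ) * A⁻¹.mulVec p i =
      ∑ i, (A⁻¹).transpose.mulVec (fun i => (n i : ℝ)) i * p i := by
    intro n
    have h := Matrix.dotProduct_mulVec (fun i => (n i : ℝ)) A⁻¹ p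
    rw [← Matrix.mulVec_transpose] at h
    exact h
  simp only [e1, e2, e3, Real.norm_eq_abs, Real.abs_exp, Finset.card_empty, pow_zero,
    mul_one] at h1 h2 h3
  refine ⟨h1, h2, ?_⟩
  have hs : Summable (fun n : J → ℤ => Complex.exp ((2 * π *
      (∑ i, (A⁻¹).transpose.mulVec (fun i => (n i : ℝ)) i * p i) : ℝ) * Complex.I) *
      ((Real.exp (-π * ∑ i, ((A⁻¹).transpose.mulVec (fun i => (n i : ℝ)) i) ^ 2) : ℝ) : ℂ)) := by
    apply Summable.of_norm
    refine h2.congr ?_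
    intro n
    rw [norm_mul, Complex.norm_exp_ofReal_mul_I, one_mul, Complex.norm_real, Real.norm_eq_abs,
      Real.abs_exp]
  have h6 := congrArg Complex.re h3
  rw [← Complex.ofReal_tsum, Complex.ofReal_re, Complex.re_ofReal_mul, Complex.re_tsum hs] at h6
  rw [h6]
  congr 1
  apply tsum_congr
  intro n
  rw [Complex.re_mul_ofReal, Complex.exp_ofReal_mul_I_re, mul_comm]

end Pool.Agent.H1.NVE_POS
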