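import Pool.Agent.H61.NVK.TargetsE3

/-!
# Row E_ZCB of `nvk_modules`: the central value with real discriminants
-/

set_option autoImplicit false

open MeasureTheory Set Filter NumberField NumberField.InfinitePlace
open scoped Real nonZeroDivisors

namespace Pool.Agent.H1.NVE_ZCB

open Pool.Agent.H65.CM4 Pool.Agent.H61.CM4 Pool.Agent.H61.NVK

theorem mem_Sc {k : Type} [Field k] [NumberField k] (D : Pl k → ℝ) (hD : ∀ v, 0 < D v) :
    (fun v => (D v : ℂ)) ∈ Sc k := by
  have hn : (0 : ℝ) < dg k := by
    have : 0 < dg k := Module.finrank_pos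
    exact_mod_cast this
  intro v
  simp only [Complex.ofReal_re, Complex.ofReal_im, abs_zero]
  exact ⟨hD v, div_pos (hD v) (by positivity)⟩

theorem pf_ZCB (hZCX : T_ZCX) : T_ZCB := by
  intro k _ _ _
  obtain ⟨h1, h2, -, C, j, hC, h4⟩ := hZCX k
  refine ⟨?_, C, j, hC, ?_⟩
  · intro A f b
    have hc : ContinuousOn (fun D : Pl k → ℝ =>
        (zc (A : Ideal (𝓞 k)) f b (fun v => (D v : ℂ))).re) {D | ∀ v, 0 < D v} := by
      apply Complex.continuous_re.comp_continuousOn
      apply (h2 A f b).comp
      · apply Continuous.continuousOn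
        fun_prop
      · intro D hD
        exact mem_Sc D hD
    apply hc.congr
    intro D hD
    change zf (A : Ideal (𝓞 k)) f b D = (zc (A : Ideal (𝓞 k)) f b (fun v => (D v : ℂ))).re
    rw [h1 A f b D hD, Complex.ofReal_re]
  · intro A f b D hD
    have h := h4 A f b (fun v => (D v : ℂ)) (mem_Sc D hD)
    rw [h1 A f b D hD, Complex.norm_real, Real.norm_eq_abs] at h
    have h5 : ∀ v, ‖(D v : ℂ)‖ = D v := by
      intro v
      rw [Complex.norm_real, Real.norm_eq_abs, abs_of_pos (hD v)]
    simp only [h5] at h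
    exact h

end Pool.Agent.H1.NVE_ZCB
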